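import Mathlib
import Pool.Agent.H95.Cop.Defs
import Pool.Agent.H55.CU.FIN
import Pool.Agent.H55.CU.All

/-!
# `MP_65efe8_pr`: the sharp upper bound of the gap of the slope of the copolymer critical curve

The definitions of the model (law of the polymer, `Δ_n`, partition function, free energy, critical
curve) are in `Pool.Agent.H95.Cop.Defs`; they are those of the problem. They are well behaved under
the hypotheses of the theorem: the free energy exists for all `λ` and `h`
(`Pool.Agent.H95.Cop.exists_freeEnergy`), and for `λ > 0` the set `{h ≥ 0 : f(λ,h) > 0}` is bounded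
above (`Pool.Agent.H95.Cop.localized_bddAbove`).

For every `α ∈ (0,1)`, `limsup h_c(λ)/λ ≤ 1/(1+α) + 2^51 α²`. Together with the lower bound of
`GapOrder` the gap `m_α - 1/(1+α)` is of exact order `α²` as `α → 0`. The proof is a multi-scale
fractional moment argument: on cells of length `1/(8 α λ²)`, the excursions below the interface of
about `2^s` cells are treated with the exponent `(1 + α/2^s)/(1+α)`, and Jensen's inequality is used
between consecutive scales; at the scale `s` the cost is of order `α 2^s`, and the scales up to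
`α 2^s` of order one are summed as a geometric series.
-/

open MeasureTheory Filter Topology

namespace Pool.Agent.Results.MP_65efe8_pr.GapUpperBound

open Pool.Agent.H95.Cop

/-- For every `α ∈ (0,1)`, every inter-arrival law `K` with `K(n) ~ c_K n^{-(1+α)}` and every law `μ`
of the charges with mean `0`, variance `1` and all exponential moments,
`h_c(λ)/λ ≤ 1/(1+α) + 2^51 α²` for all small `λ > 0`. -/
theorem result (α : ℝ) (hα : 0 < α) (hα1 : α < 1)
    (K : PMF ℕ) (hK0 : K 0 = 0) (cK : ℝ) (hcK : 0 < cK)
    (hK : Tendsto (fun n : ℕ => (K n).toReal * (n : ℝ) ^ (1 + α)) atTop (𝓝 cK))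
    (μ : Measure ℝ) [IsProbabilityMeasure μ]
    (hexp : ∀ t : ℝ, Integrable (fun z => Real.exp (t * z)) μ)
    (hmean : ∫ z, z ∂μ = 0) (hvar : ∫ z, z ^ 2 ∂μ = 1) :
    ∀ᶠ lam in 𝓝[>] (0 : ℝ), criticalCurve K μ lam / lam ≤ 1 / (1 + α) + 2 ^ 51 * α ^ 2 :=
  Pool.Agent.H55.CU.pf_FIN Pool.Agent.H55.CU.c_NEG Pool.Agent.H55.CU.c_PAR
    α hα hα1 K hK0 cK hcK hK μ hexp hmean hvar

end Pool.Agent.Results.MP_65efe8_pr.GapUpperBound
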